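import Pool.Agent.Helper16.SD.GoalsE
import Pool.Agent.Helper51.REC.Goals2
import Pool.Agent.Helper6.REC.Core
import Pool.Agent.Helper99.RS.QEX

/-!
# Packet SD-B_DNS (MP_fc6b1e_nt): an element whose symbols vanish is a `p`-th power
-/

set_option autoImplicit false

namespace Pool.Agent.Helper40.SD.B_DNS

open NumberField Module IsDedekindDomain
open Pool.Agent.Helper51.RP Pool.Agent.Helper51.REC Pool.Agent.Helper16.SD

/-- If a power of `x` with exponent prime to `p` is a `p`-th power then so is `x`. -/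
theorem pw_of_pow {p : ℕ} (hp : p.Prime) {M : Type} [Field M] (x : Mˣ) (a : ℕ) (ha : ¬ p ∣ a)
    (h : Pw p (x ^ a)) : Pw p x := by
  obtain ⟨y, hy⟩ := h
  have hc : Nat.Coprime a p := Nat.Coprime.symm ((Nat.Prime.coprime_iff_not_dvd hp).2 ha)
  have h1 := Nat.gcd_eq_gcd_ab a p
  rw [hc.gcd_eq_one, Nat.cast_one] at h1
  refine ⟨y ^ (Nat.gcdA a p) * x ^ (Nat.gcdB a p), ?_⟩
  calc x = x ^ ((a : ℤ) * Nat.gcdA a p + (p : ℤ) * Nat.gcdB a p) := by rw [← h1, zpow_one]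
    _ = (x ^ a) ^ Nat.gcdA a p * (x ^ Nat.gcdB a p) ^ p := by
        rw [zpow_add, zpow_mul, zpow_natCast, mul_comm (p : ℤ), zpow_mul, zpow_natCast]
    _ = (y ^ Nat.gcdA a p * x ^ Nat.gcdB a p) ^ p := by
        rw [hy, mul_pow, ← zpow_natCast (y ^ Nat.gcdA a p) p, ← zpow_mul,
          ← zpow_natCast y p, ← zpow_mul, mul_comm (p : ℤ)]

theorem t (hK : K_BAS) (hL : L_LOW) (hU : L_UPP) : Pool.Agent.Helper16.SD.B_DNS := by
  intro p _ F _ _ ε hε x Z hZ hk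
  have hp : p.Prime := Fact.out
  by_contra hx
  have hind : ∀ a : Fin 1 → ℕ, Pw p (∏ i, (fun _ : Fin 1 => x) i ^ a i) → ∀ i, p ∣ a i := by
    intro a ha i
    rw [Fin.prod_univ_one] at ha
    by_contra hcon
    rw [Fin.fin_one_eq_zero i] at hcon
    exact hx (pw_of_pow hp x (a 0) hcon ha)
  obtain ⟨C1, hC1⟩ := hL p F ε hε 0 Fin.elim0
    (Z ∪ {w : HeightOneSpectrum (𝓞 F) | ordv w (x : F) ≠ 0})
    (hZ.union (Pool.Agent.Helper6.REC.ordv_fin x))
  obtain ⟨C2, hC2⟩ := hU p 1 F ε hε (fun _ => x) hind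
  have hsub : {v : HeightOneSpectrum (𝓞 F) |
      v ∉ (Z ∪ {w : HeightOneSpectrum (𝓞 F) | ordv w (x : F) ≠ 0}) ∧
        v.valuation F (p : F) = 1 ∧ ∀ i : Fin 0, LocPow p v ((Fin.elim0 i : Fˣ) : F)} ⊆
      {v : HeightOneSpectrum (𝓞 F) | v.valuation F (p : F) = 1 ∧
        ∀ i : Fin 1, LocPow p v (((fun _ : Fin 1 => x) i : Fˣ) : F)} := by
    rintro v ⟨hv1, hv2, -⟩
    refine ⟨hv2, fun _ => ?_⟩
    have hv3 : v ∉ Z := fun h => hv1 (Or.inl h)
    have hv4 : ordv v (x : F) = 0 := by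
      by_contra h
      exact hv1 (Or.inr h)
    obtain ⟨-, -, -, -, -, kloc, -⟩ := hK p F ε hε v hv2
    exact (kloc x (by rw [hv4]; exact dvd_zero _)).1 (hk v hv3)
  have hp1 : (1 : ℝ) < p := by exact_mod_cast hp.one_lt
  have hp0 : (0 : ℝ) < p := by linarith
  set δ : ℝ := 1 - 1 / (p : ℝ) with hδ
  have hδ0 : 0 < δ := by
    rw [hδ, sub_pos, div_lt_one hp0]
    exact hp1
  set K : ℝ := (|C1 + C2| + 1) / δ with hKd
  have hK0 : 0 ≤ K := by positivity
  have hs1 : 1 < 1 + Real.exp (-K) := by linarith [Real.exp_pos (-K)]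
  have hs2 : 1 + Real.exp (-K) ≤ 2 := by
    have : Real.exp (-K) ≤ 1 := Real.exp_le_one_iff.2 (by linarith)
    linarith
  have e1 := hC1 _ hs1 hs2
  have e2 := hC2 _ hs1 hs2
  have e3 := Pool.Agent.Helper99.RS.pz_mono hsub _ hs1
  have e4 : Real.log (1 / (1 + Real.exp (-K) - 1)) = K := by
    rw [add_sub_cancel_left, one_div, Real.log_inv, Real.log_exp, neg_neg]
  rw [e4] at e1 e2
  rw [pow_zero, div_one, one_mul] at e1
  rw [pow_one] at e2
  have e5 : δ * K = |C1 + C2| + 1 := by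
    rw [hKd]
    field_simp
  have e6 : δ * K = K - 1 / (p : ℝ) * K := by
    rw [hδ]
    ring
  have e7 := le_abs_self (C1 + C2)
  linarith

end Pool.Agent.Helper40.SD.B_DNS
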