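import Pool.Agent.Helper16.SD.GoalsD

/-!
# Packet SD-Z_PC (MP_fc6b1e_nt): completely split primes and place closed sets
-/

set_option autoImplicit false

namespace Pool.Agent.Helper40.SD.Z_PC

open Pool.Agent.Helper16.SD

theorem eq_of_norm {p : ℕ} [Fact p.Prime] {K : Type} [Field K] (hS : SplitP p K)
    (σ τ : K →+* ℂ_[p]) (h : ∀ x, ‖σ x‖ = ‖τ x‖) : σ = τ := by
  ext x
  obtain ⟨a, ha⟩ := hS σ x
  refine (eq_of_forall_dist_le fun ε hε => ?_)
  obtain ⟨q, hq⟩ := Padic.rat_dense p a (half_pos hε)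
  have h1 : ∀ ρ : K →+* ℂ_[p], ρ (q : K) = algebraMap ℚ_[p] ℂ_[p] (q : ℚ_[p]) := fun ρ => by
    rw [map_ratCast, map_ratCast]
  have h2 : ‖σ (x - q)‖ < ε / 2 := by
    rw [map_sub, ha, h1, ← map_sub, norm_algebraMap']
    exact hq
  have h3 : ‖τ (x - q)‖ < ε / 2 := by
    rw [← h]
    exact h2
  rw [dist_eq_norm]
  have h4 : σ x - τ x = σ (x - q) - τ (x - q) := by
    rw [map_sub, map_sub, h1, h1]
    ring
  rw [h4]
  exact (norm_sub_le _ _).trans (by linarith)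

theorem t : Pool.Agent.Helper16.SD.Z_PC := by
  intro p _ K _ _ hS
  refine ⟨fun σ τ h => eq_of_norm hS σ τ h, fun T σ τ h => ?_⟩
  rw [eq_of_norm hS σ τ h]

end Pool.Agent.Helper40.SD.Z_PC
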