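import Pool.Agent.Helper16.SD.GoalsS

/-!
# Packet SD-A_TRV (MP_fc6b1e_nt): transitivity of the automorphisms on the embeddings
-/

set_option autoImplicit false

namespace Pool.Agent.Helper40.SD.A_TRV

theorem two (K Ω₁ Ω₂ : Type) [Field K] [Field Ω₁] [Field Ω₂] [Algebra K Ω₁] [Algebra K Ω₂]
    [IsAlgClosure K Ω₁] [IsAlgClosure K Ω₂] :
    ∃ γ : Ω₁ ≃+* Ω₂, ∀ x : K, γ (algebraMap K Ω₁ x) = algebraMap K Ω₂ x :=
  ⟨(IsAlgClosure.equiv K Ω₁ Ω₂).toRingEquiv, fun x => (IsAlgClosure.equiv K Ω₁ Ω₂).commutes x⟩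

theorem clos (K Ω : Type) [Field K] [Field Ω] [CharZero K] [CharZero Ω] [Algebra K Ω]
    [Algebra.IsAlgebraic ℚ Ω] [IsAlgClosed Ω] : IsAlgClosure K Ω :=
  ⟨inferInstance, Algebra.IsAlgebraic.tower_top (K := ℚ) K⟩

theorem gen (K Ω : Type) [Field K] [Field Ω] [CharZero K] [CharZero Ω]
    [Algebra.IsAlgebraic ℚ Ω] [IsAlgClosed Ω] (σ τ : K →+* Ω) :
    ∃ γ : Ω ≃+* Ω, ∀ x : K, γ (σ x) = τ x :=
  @two K Ω Ω _ _ _ σ.toAlgebra τ.toAlgebra (@clos K Ω _ _ _ _ σ.toAlgebra _ _)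
    (@clos K Ω _ _ _ _ τ.toAlgebra _ _)

theorem t : Pool.Agent.Helper16.SD.A_TRV := by
  intro K _ _ σ τ
  have h1 : Algebra.IsAlgebraic ℚ (AlgebraicClosure K) :=
    Algebra.IsAlgebraic.trans ℚ K (AlgebraicClosure K)
  obtain ⟨γ, hγ⟩ := gen K (AlgebraicClosure K) σ τ
  exact ⟨γ, RingHom.ext fun x => hγ x⟩

end Pool.Agent.Helper40.SD.A_TRV
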